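import Pool.Agent.Lib.MP_af3a4a_an.P1.CHK.DATA.N8.K0
import Pool.Agent.Lib.MP_af3a4a_an.P1.CHK.DATA.N8.K1
import Pool.Agent.Lib.MP_af3a4a_an.P1.CHK.DATA.N8.K2

/-! glue for 8 <= N <= 8 (generated) -/

set_option autoImplicit false
set_option maxRecDepth 100000

namespace Pool.Agent.Lib.MP_af3a4a_an.P1.CHK.DATA.N8

open BOX

theorem g0 : ChunkP 8 8 0 1024 0 101 0 2484 := ChunkP.r k0 k1
theorem g1 : ChunkP 8 8 1024 1536 48 64 0 2484 := ChunkP.R k4 k5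
theorem g2 : ChunkP 8 8 1024 1536 32 64 0 2484 := ChunkP.g k3 g1
theorem g3 : ChunkP 8 8 1024 1536 0 64 0 2484 := ChunkP.g k2 g2
theorem g4 : ChunkP 8 8 1024 1536 64 80 0 2484 := ChunkP.R k6 k7
theorem g5 : ChunkP 8 8 1024 1536 64 96 0 2484 := ChunkP.g g4 k8
theorem g6 : ChunkP 8 8 1024 1536 64 101 0 2484 := ChunkP.g g5 k9
theorem g7 : ChunkP 8 8 1024 1536 0 101 0 2484 := ChunkP.g g3 g6
theorem g8 : ChunkP 8 8 1536 1792 48 64 1728 2484 := ChunkP.g k20 k21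
theorem g9 : ChunkP 8 8 1536 1792 48 64 1680 2484 := ChunkP.R k19 g8
theorem g10 : ChunkP 8 8 1536 1792 48 64 1632 2484 := ChunkP.R k18 g9
theorem g11 : ChunkP 8 8 1536 1792 48 64 1536 2484 := ChunkP.R k17 g10
theorem g12 : ChunkP 8 8 1536 1792 48 64 1296 2484 := ChunkP.R k16 g11
theorem g13 : ChunkP 8 8 1792 2048 48 64 1344 2484 := ChunkP.R k23 k24
theorem g14 : ChunkP 8 8 1792 2048 48 64 1296 2484 := ChunkP.R k22 g13
theorem g15 : ChunkP 8 8 1536 2048 48 64 1296 2484 := ChunkP.r g12 g14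
theorem g16 : ChunkP 8 8 1536 2048 48 64 1248 2484 := ChunkP.R k15 g15
theorem g17 : ChunkP 8 8 1536 2048 48 64 1200 2484 := ChunkP.R k14 g16
theorem g18 : ChunkP 8 8 1536 2048 48 64 1056 2484 := ChunkP.R k13 g17
theorem g19 : ChunkP 8 8 1536 2048 48 64 0 2484 := ChunkP.R k12 g18
theorem g20 : ChunkP 8 8 1536 2048 32 64 0 2484 := ChunkP.g k11 g19
theorem g21 : ChunkP 8 8 1536 2048 0 64 0 2484 := ChunkP.g k10 g20
theorem g22 : ChunkP 8 8 1536 1792 64 72 1920 2484 := ChunkP.r k34 k35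
theorem g23 : ChunkP 8 8 1536 1792 64 72 1872 2484 := ChunkP.R k33 g22
theorem g24 : ChunkP 8 8 1536 1792 64 72 1824 2484 := ChunkP.R k32 g23
theorem g25 : ChunkP 8 8 1536 1792 64 80 1824 2484 := ChunkP.g g24 k36
theorem g26 : ChunkP 8 8 1536 1792 64 80 1776 2484 := ChunkP.R k31 g25
theorem g27 : ChunkP 8 8 1536 1792 64 80 1680 2484 := ChunkP.R k30 g26
theorem g28 : ChunkP 8 8 1536 1792 64 80 1488 2484 := ChunkP.R k29 g27
theorem g29 : ChunkP 8 8 1536 2048 64 80 1488 2484 := ChunkP.r g28 k37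
theorem g30 : ChunkP 8 8 1536 2048 64 80 1440 2484 := ChunkP.R k28 g29
theorem g31 : ChunkP 8 8 1536 2048 64 80 1344 2484 := ChunkP.R k27 g30
theorem g32 : ChunkP 8 8 1536 2048 64 80 1152 2484 := ChunkP.R k26 g31
theorem g33 : ChunkP 8 8 1536 2048 64 80 0 2484 := ChunkP.R k25 g32
theorem g34 : ChunkP 8 8 1536 2048 64 96 0 2484 := ChunkP.g g33 k38
theorem g35 : ChunkP 8 8 1536 2048 64 101 0 2484 := ChunkP.g g34 k39
theorem g36 : ChunkP 8 8 1536 2048 0 101 0 2484 := ChunkP.g g21 g35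
theorem g37 : ChunkP 8 8 1024 2048 0 101 0 2484 := ChunkP.r g7 g36
theorem g38 : ChunkP 8 8 0 2048 0 101 0 2484 := ChunkP.r g0 g37
theorem g39 : ChunkP 8 8 2048 2560 48 64 960 2484 := ChunkP.g k45 k46
theorem g40 : ChunkP 8 8 2048 2560 48 64 912 2484 := ChunkP.R k44 g39
theorem g41 : ChunkP 8 8 2048 2560 48 64 864 2484 := ChunkP.R k43 g40
theorem g42 : ChunkP 8 8 2048 2560 48 64 0 2484 := ChunkP.R k42 g41
theorem g43 : ChunkP 8 8 2048 2560 32 64 0 2484 := ChunkP.g k41 g42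
theorem g44 : ChunkP 8 8 2048 2560 0 64 0 2484 := ChunkP.g k40 g43
theorem g45 : ChunkP 8 8 2048 2560 0 101 0 2484 := ChunkP.g g44 k47
theorem g46 : ChunkP 8 8 2560 3072 32 64 0 2484 := ChunkP.g k49 k50
theorem g47 : ChunkP 8 8 2560 3072 0 64 0 2484 := ChunkP.g k48 g46
theorem g48 : ChunkP 8 8 2560 3072 0 101 0 2484 := ChunkP.g g47 k51
theorem g49 : ChunkP 8 8 2048 3072 0 101 0 2484 := ChunkP.r g45 g48
theorem g50 : ChunkP 8 8 3072 3584 0 64 0 2484 := ChunkP.g k52 k53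
theorem g51 : ChunkP 8 8 3072 3584 0 101 0 2484 := ChunkP.g g50 k54
theorem g52 : ChunkP 8 8 3072 4096 0 101 0 2484 := ChunkP.r g51 k55
theorem g53 : ChunkP 8 8 2048 4096 0 101 0 2484 := ChunkP.r g49 g52
theorem g54 : ChunkP 8 8 0 4096 0 101 0 2484 := ChunkP.r g38 g53

/-- the whole box -/
theorem allBox : ChunkP 8 8 0 4096 0 101 0 2484 := g54

theorem full {N : ℕ} (hNa : 8 ≤ N) (hNb : N ≤ 8) {z w : Fin N → ℂ} {R : ℝ} {σ : Fin N → ℂ}
    (hC : Pool.Agent.Lib.MP_af3a4a_an.P1.H80.Cfg2 N z w R σ) : ((2484 : ℕ) : ℝ) / 1024 < R := ChunkP.full allBox hNa hNb hC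

end Pool.Agent.Lib.MP_af3a4a_an.P1.CHK.DATA.N8
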